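import Pool.Agent.Y882.GX.Sm

/-!
# Every large even number is a small prime plus an almost prime

Chen's theorem with a small prime (Cai 2014): every large even `N` is `p + P₂` with `p ≤ N ^ 0.941`. Here the
prime is as small as `N ^ θ` for an arbitrary given `θ > 0`, WITHOUT exceptional `N`: the number of the prime factors
of `N - p` is at most any `r > 20 / (9 θ) - 3 / 80`, there are no small prime factors, and the number of the `p` is of the
expected order of magnitude. Method: a weighted linear sieve (libraries Y882.PX, KW, SI, GW, GX of the starting files).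
-/

set_option autoImplicit false

open Finset Filter

namespace Pool.Agent.Results.MP_bae66e_nt.EveryEvenNumber

/-- the variable part of the singular series of the Goldbach problem -/
noncomputable def sing (N : ℕ) : ℝ :=
  ∏ p ∈ N.primeFactors.erase 2, (((p : ℝ) - 1) / ((p : ℝ) - 2))

open Classical in
/-- The number of the primes `p < N` with `N ^ θ / 4 < p < N ^ θ` such that `N - p` has at most `r`
prime factors (counted with multiplicity), all of them at least `N ^ ζ / 2`. -/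
noncomputable def almostPrimes (r : ℕ) (θ ζ : ℝ) (N : ℕ) : ℕ :=
  ((range N).filter (fun p : ℕ => p.Prime ∧ (N : ℝ) ^ θ / 4 < p ∧ (p : ℝ) < (N : ℝ) ^ θ ∧
    (N - p).primeFactorsList.length ≤ r ∧
    ∀ q : ℕ, q.Prime → q ∣ (N - p) → (N : ℝ) ^ ζ / 2 ≤ q)).card

/-- Let `0 < θ ≤ 1` and let `r` be a natural number with `r > 20 / (9 θ) - 3 / 80`. There are `ζ > 0`, `δ > 0` and `N₀` such
that for EVERY even `N ≥ N₀` there are at least `δ sing N N ^ θ / (log N) ^ 2` primes `p` with
`N ^ θ / 4 < p < N ^ θ` such that `N - p` has at most `r` prime factors, all of them at least `N ^ ζ / 2`. Any positive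
`ζ < θ / 8` with `(r + 3 / 80) * 4 ζ > 10 / 9` is possible. -/
theorem result (θ : ℝ) (r : ℕ) (hθ0 : 0 < θ) (hθ1 : θ ≤ 1) (hr : 20 / (9 * θ) - 3 / 80 < r) :
    (∃ ζ : ℝ, 0 < ζ ∧ ζ < θ / 8 ∧ 10 / 9 < (r + 3 / 80) * (4 * ζ)) ∧
    ∀ ζ : ℝ, 0 < ζ → ζ < θ / 8 → 10 / 9 < (r + 3 / 80) * (4 * ζ) →
      ∃ δ : ℝ, 0 < δ ∧ ∃ N₀ : ℕ, ∀ N : ℕ, N₀ ≤ N → Even N →
        δ * sing N * ((N : ℝ) ^ θ / Real.log N ^ 2) ≤ (almostPrimes r θ ζ N : ℝ) := by
  constructor
  · have hr0 : (0 : ℝ) < r + 3 / 80 := by positivity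
    have h1 : 10 / 9 / (4 * (r + 3 / 80)) < θ / 8 := by
      rw [div_lt_iff₀ (by positivity)]
      have h2 : 20 / (9 * θ) < r + 3 / 80 := by linarith
      rw [div_lt_iff₀ (by positivity)] at h2
      nlinarith
    obtain ⟨ζ, h2, h3⟩ := exists_between h1
    refine ⟨ζ, lt_trans (by positivity) h2, h3, ?_⟩
    rw [div_lt_iff₀ (by positivity)] at h2
    nlinarith
  · intro ζ hζ0 hζ1 hζ2
    obtain ⟨δ, hδ, N0, h⟩ := Pool.Agent.Y882.GX.smallEvery r θ (4 * ζ) (by linarith) (by linarith) hθ1 hζ2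
    rw [show 4 * ζ / 4 = ζ by ring] at h
    exact ⟨δ, hδ, N0, h⟩

end Pool.Agent.Results.MP_bae66e_nt.EveryEvenNumber
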