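import Pool.Agent.X31.D1

/-!
# Tiny prime summands: the sharp order of magnitude at every scale, for dense sets of primes

Let `z ≤ Z`. The number of the integers of the form `p + q` with primes `p ≤ z`, `q ≤ Z` is at most about
`W = (z / log z) (Z / log Z)`. We prove that this is the true order of magnitude as long as `W ≤ Z`, thus up to
`z = log Z log log Z`, and that for larger `z` a positive proportion of the integers up to `Z` has at least the expected
order `W / Z` of representations. So for `z = η log Z log log Z` at least `c η Z` of the even integers `m ≤ 2 Z` have their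
least prime summand `g(m) ≤ η log Z log log Z` (the problem: `g(m) ≤ C log ^ 2 m log log m` for all `m`).
The theorem is about arbitrary sets `R`, `S` of primes which contain a proportion of `δ` of `z / log z` and
`Z / log Z` elements of the intervals `(k, k + z]` and `(M, M + Z]`, with arbitrary `k`, `M`.

Method: Cauchy-Schwarz; the pairs of representations `p + q = p' + q'` are counted with a sieve bound which is
uniform in `p' - p` (`Pool.Agent.Y949.DK.t_SV`, starting files), and once more with a sieve bound for the pairs `p, p'`.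
-/

set_option autoImplicit false

namespace Pool.Agent.Results.MP_bae66e_nt.TinySummands

open Finset

open Classical in
/-- The number of the representations `N = p + q` with `p ∈ R`, `k < p ≤ k + z` and `q ∈ S`, `M < q ≤ M + Z`. -/
noncomputable def rep (R S : Set ℕ) (k z M Z N : ℕ) : ℕ :=
  ((Ioc k (k + z) ×ˢ Ioc M (M + Z)).filter (fun x => x.1 ∈ R ∧ x.2 ∈ S ∧ x.1 + x.2 = N)).card

open Classical in
/-- There are absolute constants `c > 0` and `z₀` such that for all `0 < δ ≤ 1`, `z₀ ≤ z ≤ Z`, all `k`, `M` and all sets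
`R`, `S` of primes with at least `δ z / log z` elements of `R` in `(k, k + z]` and at least `δ Z / log Z` elements of `S` in
`(M, M + Z]`, at least `c δ ^ 4 min (z Z / (log z log Z), Z)` integers `N` have at least one, and at least
`c δ ^ 2 z / (log z log Z)`, representations `N = p + q` with `p ∈ R`, `k < p ≤ k + z`, `q ∈ S`, `M < q ≤ M + Z`. -/
theorem result : ∃ c : ℝ, 0 < c ∧ ∃ z₀ : ℕ, ∀ δ : ℝ, 0 < δ → δ ≤ 1 → ∀ z Z : ℕ, z₀ ≤ z → z ≤ Z →
    ∀ (k M : ℕ) (R S : Set ℕ), (∀ p ∈ R, p.Prime) → (∀ q ∈ S, q.Prime) →
    δ * (z / Real.log z) ≤ (((Ioc k (k + z)).filter (fun p => p ∈ R)).card : ℝ) →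
    δ * (Z / Real.log Z) ≤ (((Ioc M (M + Z)).filter (fun q => q ∈ S)).card : ℝ) →
    c * δ ^ 4 * min (z * Z / (Real.log z * Real.log Z)) Z ≤
      (((Ioc (k + M) (k + M + (z + Z))).filter (fun N => 1 ≤ rep R S k z M Z N ∧
        c * δ ^ 2 * (z / (Real.log z * Real.log Z)) ≤ rep R S k z M Z N)).card : ℝ) := by
  obtain ⟨c, hc, z₀, H⟩ := Pool.Agent.X31.sums_lower
  refine ⟨c, hc, z₀, fun δ hδ hδ1 z Z hz hzZ k M R S hR hS hRc hSc => ?_⟩
  have h1 := H δ hδ hδ1 z Z hz hzZ k M ((Ioc k (k + z)).filter (fun p => p ∈ R))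
    ((Ioc M (M + Z)).filter (fun q => q ∈ S)) (by
      intro p hp
      rw [mem_filter] at hp ⊢
      exact ⟨hp.1, hR p hp.2⟩) (by
      intro p hp
      rw [mem_filter] at hp ⊢
      exact ⟨hp.1, hS p hp.2⟩) hRc hSc
  have h2 : ∀ N, Pool.Agent.X31.rp ((Ioc k (k + z)).filter (fun p => p ∈ R))
      ((Ioc M (M + Z)).filter (fun q => q ∈ S)) N = rep R S k z M Z N := by
    intro N
    unfold Pool.Agent.X31.rp rep
    congr 1
    ext x
    simp only [mem_filter, mem_product]
    tauto
  simp only [h2] at h1
  exact h1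

end Pool.Agent.Results.MP_bae66e_nt.TinySummands
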